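import Pool.Agent.N179.GD.Fin

/-!
# Periods of CM sub-Hodge structures, independent families, and an arbitrary variety

Let `W` be the de Rham cohomology with coefficients in `K = ℂ` of smooth projective varieties over the
algebraic numbers, `t = 2πi`, `dR X m` the de Rham classes over the algebraic numbers, `forms X m`
the rational linear forms on the Betti cohomology `H^m(X)` (`IsPeriodTheory`; the theorem is proved for
an abstract theory over a field isomorphic to `ℂ`). Let `Γ` be the Mumford–Tate group: the group of the
`K`-valued points of the fundamental group of the category of the polarisable rational Hodge structures,
and `χ` its action on the Tate twist `H^2(ℙ^1)` (`IsMT`).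

If `(H, F, ι)` is an admissible triple, `Γ` acts on the lines `H_σ` by characters `ψ_σ`. Let `C` be the
set of the characters obtained from abelian fields `F`, and `v ψ` the product of the values of the
Gamma function in the Gross–Deligne conjecture; `v (ψ χ)` is `2πi · v ψ` up to an algebraic number by
the reflection formula (`IsPrediction`; `C` and `v` are arbitrary in the theorem). The statement
`PeriodsOn` for `X` is: if `Γ` multiplies a de Rham class `ω` in `H^m(X)` by a character `ψ` in `C`, then
all rational periods of `ω` are algebraic multiples of `v ψ`. It implies the Gross–Deligne conjecture for
all admissible triples in the cohomology of `X`.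

Let `V_i`, `i ∈ ι`, be any family of Hodge structures such that the representations `End V_i` are
semisimple (always true for polarisable `V_i`), and which are pairwise independent: for `i ≠ j` every
equivariant linear map `End V_i → End V_j` has its values in the span of the semi-invariant vectors (which
`Γ` multiplies by characters). For instance `V_i = H^1(A_i)` for pairwise not isogenous elliptic curves
without complex multiplication, or for pairwise not isogenous abelian varieties `A_i` with
`End A_i = ℤ` and of odd dimension. Let `P_a` be varieties with cohomology generated by `V_(i_a)`, for
instance **arbitrary powers** of `A_i`, for which the Hodge conjecture is true, homological and numerical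
equivalence coincide, and the semi-invariant classes are combinations of Hodge classes
(`AlgFactor`); for the powers of these `A_i` all this is known.

**Theorem.** Let `Z` be an **arbitrary** smooth projective variety. There is a finite set `E = E(Z)` of
indices, with at most `(b - b') / 2` elements, where `b` is the sum of the Betti numbers of `Z` and
`b' ≥ 1` is the dimension of the span of the semi-invariant classes, such that for all products
`Y = P_1 × ... × P_n × Z'` with pairwise different indices `i_a ∉ E`, and all varieties `Z'` generated by
the cohomology of `Z` (for instance `Z' = Z`, the powers of `Z`):

**the periods of all semi-invariant de Rham classes with characters in `C` are as predicted on `Y` if and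
only if they are on `Z'`.**

The exceptional members may be moved to the base, as `E(V_j) ⊆ {j}`.

The proof: by the Künneth formula for semi-invariant classes of
`MP_021685_ag.IndependenceFromSquares`, applied to the Mumford–Tate group, the slices on `P` of a
semi-invariant class `ω` on `P × Z'` are combinations of classes of cycles. So `ω` is the sum of the
`a_i × p_*(ω · b_i)` for two dual families `a_i`, `b_i` of classes of cycles on `P`. The classes
`p_*(ω · b_i)` are semi-invariant de Rham classes on `Z'`, and a rational form `γ` restricted to
`a_i × H(Z')` is a power of `2πi` times a rational form.
-/

set_option autoImplicit false

universe u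

namespace Pool.Agent.Results.MP_b23d8d_ag.IndependentFamilies

open Pool.Agent.H914 Pool.Agent.N179.GR.S Pool.Agent.N179.PC Pool.Agent.N179.GD

/-- **Periods of semi-invariant classes, independent families, and an arbitrary variety.** -/
theorem result {k : Type u} [Field k] {𝒱 : VarClass k} {ops : CycleOps 𝒱}
    {W : WeilCohomology.{u, 0} ops} (hK : Nonempty (W.K ≃+* ℂ)) {Γ : Type} [Group Γ]
    {T : HodgeData W Γ} (hT : IsMT T) {ι : Type} {V : ι → GRep W.K Γ} (hV : Family V) :
    ∃ E : GRep W.K Γ → Set ι, PeriodSets T V E :=
  final hK hT hV

end Pool.Agent.Results.MP_b23d8d_ag.IndependentFamilies
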