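import Pool.Agent.N522.GD.Main

/-!
# MP_b23d8d_ag: Q1 is equivalent to the invariance of the periods of triples of the same type
-/

open Pool.Agent.N522.GD

/-- For every abelian number field `K`: the Gross–Deligne relation holds for all admissible triples
with field `K` if and only if any two such triples with the same Hodge type `p` have the same
periods up to algebraic factors.  For fields on which complex conjugation is trivial the relation
holds. -/
theorem Pool.Agent.Results.MP_b23d8d_ag.PeriodInvariance.result :
    ∀ D : Theory, Facts D → ∀ K : D.Fld,
      (Q1For K ↔ SamePeriods K) ∧ ((-1 : (ZMod (D.cond K))ˣ) ∈ D.fix K → Q1For K) :=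
  fun _ F K => ⟨q1_iff F K, fun hK H => formula_real F K hK H⟩
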